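import Pool.Agent.Q269.DX.Cv

/-!
# Project DY: tuples of divisors
-/

set_option autoImplicit false
set_option linter.all false

open scoped Classical
open Finset Polynomial Filter Topology

namespace Pool.Agent.Q269.DY

open Pool.Agent.Q269.DX Pool.Agent.Q269.DX.JQ Pool.Agent.Q269.DX.LD
open Pool.Agent.Y164.HG (Geo Del Tau QQ)
open Pool.Agent.Q269.GR (Dn mem_Dn' pr F2 S_PRD)
open Pool.Agent.Q269.GJ (Ip)
open Pool.Agent.Q269.SX (kD sgD ex S_KDR wt hasSum_prod mom_lawc)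
open Pool.Agent.Q269.SL (law2 lawc_nonneg)

section eT

variable {v : ℕ}

/-- the combination of divisors attached to `T` -/
def eT (T : Finset (Fin v)) : Fin (v + 1) → ZMod 2 := Fin.cons 1 fun i => if i ∈ T then 1 else 0

theorem eT_zero (T : Finset (Fin v)) : eT T 0 = 1 := rfl

theorem eT_succ (T : Finset (Fin v)) (i : Fin v) : eT T i.succ = if i ∈ T then 1 else 0 := rfl

theorem eT_inj : Function.Injective (eT : Finset (Fin v) → Fin (v + 1) → ZMod 2) := by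
  intro T T' h
  ext i
  have h1 := congrFun h i.succ
  rw [eT_succ, eT_succ] at h1
  by_cases h2 : i ∈ T
  · by_cases h3 : i ∈ T'
    · exact ⟨fun _ => h3, fun _ => h2⟩
    · rw [if_pos h2, if_neg h3] at h1
      exact absurd h1 one_ne_zero
  · by_cases h3 : i ∈ T'
    · rw [if_neg h2, if_pos h3] at h1
      exact absurd h1 zero_ne_one
    · exact ⟨fun h => absurd h h2, fun h => absurd h h3⟩

theorem eT_ne (T : Finset (Fin v)) : eT T ≠ 0 := fun h => one_ne_zero (congrFun h 0)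

theorem eT_sum (T : Finset (Fin v)) (x : Fin (v + 1) → ZMod 2) :
    ∑ i, eT T i * x i = x 0 + ∑ i ∈ T, x i.succ := by
  rw [Fin.sum_univ_succ, eT_zero, one_mul]
  congr 1
  simp only [eT_succ, ite_mul, one_mul, zero_mul]
  rw [sum_ite_mem, univ_inter]

end eT

section nice

variable {k : Type} [Field k] [Fintype k] {R : Type} [Fintype R] {n : R → ℕ} {a : ∀ r, Fin (n r) → k[X]}
  {N : R → ℕ} {H : ∀ r, Geo (a r) (N r)} {M J J' : Type} [Fintype M] [Fintype J] [Fintype J']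

theorem nice_equiv (E : J' ≃ J) (e : J → M → ZMod 2) {l : Filter k[X]} (hN : Nice H (fun j => e (E j)) l) :
    Nice H e l := by
  refine ⟨hN.mem, hN.spn, fun ρ hρ μ ε hε => ?_⟩
  have h1 := hN.mom ρ (fun j r => hρ (E j) r) (fun j r => μ (E j) r) ε hε
  filter_upwards [h1] with D hD
  refine le_trans (le_of_eq ?_) hD
  congr 1
  refine sum_congr rfl fun τ _ => ?_
  congr 1
  · exact (E.prod_comp fun j => ∏ r, ∏ i ∈ range (μ j r), ((kD (H r) (dv (e j) τ) : ℝ) - 2 ^ i)).symm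
  · exact (E.prod_comp fun j => ∏ r, (2 : ℝ) ^ (μ j r * (μ j r + 1) / 2)).symm

end nice

section labels

variable {k : Type} [Field k] [Fintype k] {R : Type} [Fintype R] {n : R → ℕ} {a : ∀ r, Fin (n r) → k[X]}
  {N : R → ℕ} (H : ∀ r, Geo (a r) (N r)) {v : ℕ} {D : k[X]} {m : ℕ}

/-- the labels: the parities `c, 0, …, 0` of the degrees, the symbols `χ` -/
def ro (c : ZMod 2) (χ : TQ a → Fin (v + 1) → ZMod 2) (i : Fin (v + 1)) (o : Option (TQ a)) : ZMod 2 :=
  o.elim (if i = 0 then c else 0) fun x => χ x i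

theorem ro_inj (c : ZMod 2) : Function.Injective (ro c : (TQ a → Fin (v + 1) → ZMod 2) → Fin (v + 1) → Option (TQ a) → ZMod 2) := by
  intro χ χ' h
  funext x i
  exact congrFun (congrFun h i) (some x)

theorem ro_aok {c : ZMod 2} (hc : ∀ r, c + (N r : ZMod 2) = 1) (χ : TQ a → Fin (v + 1) → ZMod 2) :
    Aok N eT (ro c χ) := by
  intro T r
  rw [lbf_apply, eT_sum]
  have h1 : ∀ i ∈ T, ro c χ i.succ none = 0 := by
    intro i _
    show (if i.succ = 0 then c else 0) = 0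
    rw [if_neg (Fin.succ_ne_zero i)]
  rw [sum_eq_zero h1, add_zero]
  show (if (0 : Fin (v + 1)) = 0 then c else 0) + (N r : ZMod 2) = 1
  rw [if_pos rfl]
  exact hc r

/-- the constant in the parity -/
noncomputable def g0 (r : R) : ZMod 2 := (Fintype.card (Tau (a r)) : ZMod 2) + ∑ s, (H r).comb.gg s

/-- the sums of the symbols over the bad primes of a family -/
noncomputable def Ph (χ : TQ a → Fin (v + 1) → ZMod 2) (r : R) (i : Fin (v + 1)) : ZMod 2 := ∑ s : Tau (a r), χ ⟨r, s⟩ i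

theorem cR_ro (c : ZMod 2) (χ : TQ a → Fin (v + 1) → ZMod 2) (T : Finset (Fin v)) (r : R) :
    cR H (lbf eT (ro c χ) T) r = g0 H r + ∑ i, eT T i * Ph χ r i := by
  unfold cR g0 Ph
  rw [sum_add_distrib]
  have h1 : ∑ s, lbf eT (ro c χ) T (some ⟨r, s⟩) = ∑ i, eT T i * ∑ s : Tau (a r), χ ⟨r, s⟩ i := by
    simp only [lbf_apply, mul_sum]
    rw [sum_comm]
    rfl
  rw [h1]
  ring

/-- the families of divisors, the first one with degree of parity `c`, the others of even degree -/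
noncomputable def Al (a : ∀ r, Fin (n r) → k[X]) (v : ℕ) (c : ZMod 2) (D : k[X]) : Finset (Ip D → Fin (v + 1) → ZMod 2) :=
  (univ : Finset (TQ a → Fin (v + 1) → ZMod 2)).biUnion fun χ => Om a (ro c χ) D

theorem mem_Al (c : ZMod 2) (τ : Ip D → Fin (v + 1) → ZMod 2) :
    τ ∈ Al a v c D ↔ ∀ i, lbs (lbD a D) τ i none = if i = 0 then c else 0 := by
  unfold Al
  rw [mem_biUnion]
  constructor
  · rintro ⟨χ, -, h⟩ i
    rw [mem_Om] at h
    rw [h]
    rfl
  · intro h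
    refine ⟨fun x i => lbs (lbD a D) τ i (some x), mem_univ _, ?_⟩
    rw [mem_Om]
    funext i o
    rcases o with _ | x
    · exact h i
    · rfl

theorem Al_disj (c : ZMod 2) : ((univ : Finset (TQ a → Fin (v + 1) → ZMod 2)) :
    Set (TQ a → Fin (v + 1) → ZMod 2)).PairwiseDisjoint fun χ => Om a (ro c χ) D := by
  intro χ _ χ' _ hne
  rw [Function.onFun, disjoint_left]
  intro τ h h'
  rw [mem_Om] at h h'
  exact hne (ro_inj c (h.symm.trans h'))

theorem Al_sum (c : ZMod 2) (g : (Ip D → Fin (v + 1) → ZMod 2) → ℝ) :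
    ∑ τ ∈ Al a v c D, g τ = ∑ χ : TQ a → Fin (v + 1) → ZMod 2, ∑ τ ∈ Om a (ro c χ) D, g τ :=
  sum_biUnion (Al_disj c)

theorem Al_card (c : ZMod 2) :
    (Al a v c D).card = ∑ χ : TQ a → Fin (v + 1) → ZMod 2, (Om a (ro c χ) D).card :=
  card_biUnion (Al_disj c)

theorem card_chi : Fintype.card (TQ a → Fin (v + 1) → ZMod 2) = 2 ^ ((v + 1) * Fintype.card (TQ a)) := by
  rw [← Nat.card_eq_fintype_card, Nat.card_fun, Nat.card_fun, Nat.card_eq_fintype_card, Nat.card_eq_fintype_card,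
    Nat.card_eq_fintype_card, ZMod.card, Fintype.card_fin, ← pow_mul]

theorem om_same (hCLN : S_CLN) (hs : Spn (lbD a D)) (ρ ρ' : Fin (v + 1) → Option (TQ a) → ZMod 2) :
    (Om a ρ D).card = (Om a ρ' D).card := by
  have h2 := om_card hCLN hs ρ
  have h3 := om_card hCLN hs ρ'
  rw [← h2] at h3
  have h4 := mul_right_cancel₀ (by positivity) h3
  exact_mod_cast h4.symm

theorem Al_om (hCLN : S_CLN) (hs : Spn (lbD a D)) (c : ZMod 2) (ρ : Fin (v + 1) → Option (TQ a) → ZMod 2) :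
    (Al a v c D).card = 2 ^ ((v + 1) * Fintype.card (TQ a)) * (Om a ρ D).card := by
  rw [Al_card, sum_congr rfl fun χ _ => om_same hCLN hs (ro c χ) ρ, sum_const, card_univ, card_chi, smul_eq_mul]

theorem Al_num (hCLN : S_CLN) (hs : Spn (lbD a D)) (c : ZMod 2) :
    (Al a v c D).card * 2 ^ (v + 1) = 2 ^ ((v + 1) * Fintype.card (Ip D)) := by
  have h1 := om_card (M := Fin (v + 1)) hCLN hs (ro c fun _ _ => 0)
  have h2 : (Om a (ro c fun _ _ => 0 : Fin (v + 1) → Option (TQ a) → ZMod 2) D).card *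
      2 ^ ((v + 1) * Fintype.card (Option (TQ a))) = (2 ^ (v + 1)) ^ Fintype.card (Ip D) := by
    rw [Fintype.card_fin] at h1
    exact_mod_cast h1
  rw [Al_om hCLN hs c (ro c fun _ _ => 0), pow_mul 2 (v + 1) (Fintype.card (Ip D)), ← h2, Fintype.card_option, mul_add,
    mul_one, pow_add]
  ring

/-- the mean of the product laws over the labels -/
noncomputable def WA (x : Finset (Fin v) × R → ℕ) : ℝ :=
  (∑ χ : TQ a → Fin (v + 1) → ZMod 2, ∏ y : Finset (Fin v) × R,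
    Pool.Agent.Q269.SL.lawc (g0 H y.2 + ∑ i, eT y.1 i * Ph χ y.2 i) (x y)) / 2 ^ ((v + 1) * Fintype.card (TQ a))

/-- **means over the tuples** -/
theorem mean_Al (hCLN : S_CLN) (hPRD : S_PRD) (hKDR : S_KDR) {l : Filter k[X]}
    (hN : Nice H (eT (v := v)) l) (c : ZMod 2) (hc : ∀ r, c + (N r : ZMod 2) = 1)
    (f : (Finset (Fin v) × R → ℕ) → ℝ) (u : ℕ) (C : ℝ) (hf : ∀ x, |f x| ≤ C * wt u x) :
    (Summable fun x : Finset (Fin v) × R → ℕ => f x * WA H x) ∧
    (∑' x : Finset (Fin v) × R → ℕ, f x * WA H x) = (∑ χ : TQ a → Fin (v + 1) → ZMod 2,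
      ∑' x : Finset (Fin v) × R → ℕ, f x * ∏ y : Finset (Fin v) × R,
        Pool.Agent.Q269.SL.lawc (g0 H y.2 + ∑ i, eT y.1 i * Ph χ y.2 i) (x y)) / 2 ^ ((v + 1) * Fintype.card (TQ a)) ∧
    Tendsto (fun D => (∑ τ ∈ Al a v c D, f (xe H eT τ)) / ((Al a v c D).card : ℝ)) l
      (nhds (∑' x : Finset (Fin v) × R → ℕ, f x * WA H x)) := by
  obtain ⟨W, hW⟩ : ∃ W : ℝ, W = 2 ^ ((v + 1) * Fintype.card (TQ a)) := ⟨_, rfl⟩
  have hW0 : W ≠ 0 := by rw [hW]; positivity
  have h1 : ∀ χ : TQ a → Fin (v + 1) → ZMod 2, _ := fun χ =>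
    mean_cls hN hCLN hPRD hKDR (ro_aok hc χ) f u C hf
  simp only [cR_ro] at h1
  have h2 : HasSum (fun x : Finset (Fin v) × R → ℕ => ∑ χ : TQ a → Fin (v + 1) → ZMod 2, f x *
      ∏ y : Finset (Fin v) × R, Pool.Agent.Q269.SL.lawc (g0 H y.2 + ∑ i, eT y.1 i * Ph χ y.2 i) (x y))
      (∑ χ : TQ a → Fin (v + 1) → ZMod 2, ∑' x : Finset (Fin v) × R → ℕ, f x *
      ∏ y : Finset (Fin v) × R, Pool.Agent.Q269.SL.lawc (g0 H y.2 + ∑ i, eT y.1 i * Ph χ y.2 i) (x y)) :=
    hasSum_sum fun χ _ => (h1 χ).1.hasSum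
  have h3 := h2.div_const W
  have e2 : (fun x : Finset (Fin v) × R → ℕ => (∑ χ : TQ a → Fin (v + 1) → ZMod 2, f x *
      ∏ y : Finset (Fin v) × R, Pool.Agent.Q269.SL.lawc (g0 H y.2 + ∑ i, eT y.1 i * Ph χ y.2 i) (x y)) / W) =
      fun x => f x * WA H x := by
    funext x
    unfold WA
    rw [← mul_sum, hW, mul_div_assoc]
  rw [e2] at h3
  refine ⟨h3.summable, by rw [h3.tsum_eq, hW], ?_⟩
  rw [h3.tsum_eq, sum_div]
  have h4 : Tendsto (fun D => ∑ χ : TQ a → Fin (v + 1) → ZMod 2,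
      ((∑ τ ∈ Om a (ro c χ) D, f (xe H eT τ)) / ((Om a (ro c χ) D).card : ℝ)) / W) l
      (nhds (∑ χ : TQ a → Fin (v + 1) → ZMod 2, (∑' x : Finset (Fin v) × R → ℕ, f x *
      ∏ y : Finset (Fin v) × R, Pool.Agent.Q269.SL.lawc (g0 H y.2 + ∑ i, eT y.1 i * Ph χ y.2 i) (x y)) / W)) :=
    tendsto_finsetSum _ fun χ _ => (h1 χ).2.div_const _
  refine h4.congr' ?_
  filter_upwards [hN.mem, hN.spn] with D hD hs
  rw [Al_sum, sum_div]
  refine sum_congr rfl fun χ _ => ?_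
  rw [Al_om hCLN hs c (ro c χ)]
  push_cast
  rw [← hW]
  field_simp

end labels

end Pool.Agent.Q269.DY
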