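import Pool.Agent.Q269.DY.A
import Pool.Agent.Q269.SX.Law
import Pool.Agent.Q269.AV.A5

/-!
# Project DY: the joint law
-/

set_option autoImplicit false
set_option linter.all false

open scoped Classical
open Finset Polynomial Filter Topology

namespace Pool.Agent.Q269.DY

open Pool.Agent.Q269.DX Pool.Agent.Q269.DX.JQ Pool.Agent.Q269.DX.LD
open Pool.Agent.Y164.HG (Geo Del Tau QQ)
open Pool.Agent.Q269.GR (Dn mem_Dn' pr F2 S_PRD)
open Pool.Agent.Q269.GJ (Ip)
open Pool.Agent.Q269.SX (kD sgD ex S_KDR wt hasSum_prod mom_lawc law2_lawc tau_ne)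
open Pool.Agent.Q269.SL (law2 lawc_nonneg lawc_eq hasSum_lawc)

section avg

variable {k : Type} [Field k] [Fintype k] {R : Type} [Fintype R] {n : R → ℕ} {a : ∀ r, Fin (n r) → k[X]}
  {N : R → ℕ} (H : ∀ r, Geo (a r) (N r)) {v : ℕ}

/-- the incidence of bad primes and families -/
noncomputable def hR (a : ∀ r, Fin (n r) → k[X]) (x : TQ a) (r : R) : ZMod 2 := if x.1 = r then 1 else 0

include H in
theorem hR_spn : Spn (hR a) := by
  intro l hl
  funext r
  obtain ⟨s⟩ := tau_ne H r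
  have h1 := hl ⟨r, s⟩
  unfold hR at h1
  simp only [mul_ite, mul_one, mul_zero] at h1
  rw [sum_ite_eq univ r l, if_pos (mem_univ r)] at h1
  exact h1

theorem lbs_hR (χ : TQ a → Fin (v + 1) → ZMod 2) : lbs (hR a) χ = fun i r => Ph χ r i := by
  funext i r
  rw [lbs_apply]
  unfold Ph hR
  rw [Fintype.sum_sigma]
  rw [sum_eq_single r]
  · exact sum_congr rfl fun s _ => by simp
  · intro r' _ hne
    exact sum_eq_zero fun s _ => by simp [hne]
  · intro h
    exact absurd (mem_univ r) h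

include H in
theorem Ph_card (hCLN : S_CLN) (ψ : R → Fin (v + 1) → ZMod 2) :
    ((univ : Finset (TQ a → Fin (v + 1) → ZMod 2)).filter fun χ => Ph χ = ψ).card * 2 ^ ((v + 1) * Fintype.card R) =
      2 ^ ((v + 1) * Fintype.card (TQ a)) := by
  have h1 := hCLN (TQ a) (Fin (v + 1)) R (hR a) (hR_spn H) fun i r => ψ r i
  rw [Fintype.card_fin, mul_comm (Fintype.card (TQ a))] at h1
  rw [← h1]
  congr 1
  refine fil_univ _ _ _ _ _ _ fun χ => ?_
  rw [lbs_hR]
  constructor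
  · intro h
    rw [h]
  · intro h
    funext r i
    exact congrFun (congrFun h i) r

include H in
/-- **the average over the symbols** -/
theorem sum_Ph (hCLN : S_CLN) (G : (R → Fin (v + 1) → ZMod 2) → ℝ) :
    (∑ χ : TQ a → Fin (v + 1) → ZMod 2, G (Ph χ)) / 2 ^ ((v + 1) * Fintype.card (TQ a)) =
      (∑ ψ : R → Fin (v + 1) → ZMod 2, G ψ) / 2 ^ ((v + 1) * Fintype.card R) := by
  rw [← sum_fiberwise (univ : Finset (TQ a → Fin (v + 1) → ZMod 2)) Ph fun χ => G (Ph χ)]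
  rw [sum_div, sum_div]
  refine sum_congr rfl fun ψ _ => ?_
  have h1 := Ph_card H hCLN ψ
  have h2 : ∑ χ ∈ (univ : Finset (TQ a → Fin (v + 1) → ZMod 2)).filter (fun χ => Ph χ = ψ), G (Ph χ) =
      (((univ : Finset (TQ a → Fin (v + 1) → ZMod 2)).filter fun χ => Ph χ = ψ).card : ℝ) * G ψ := by
    rw [← nsmul_eq_mul, ← sum_const]
    exact sum_congr rfl fun χ hχ => by rw [(mem_filter.1 hχ).2]
  have h3 : ((((univ : Finset (TQ a → Fin (v + 1) → ZMod 2)).filter fun χ => Ph χ = ψ).card : ℕ) : ℝ) *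
      2 ^ ((v + 1) * Fintype.card R) = 2 ^ ((v + 1) * Fintype.card (TQ a)) := by
    exact_mod_cast h1
  rw [h2, ← h3]
  have h4 : ((((univ : Finset (TQ a → Fin (v + 1) → ZMod 2)).filter fun χ => Ph χ = ψ).card : ℕ) : ℝ) ≠ 0 := by
    intro h0
    rw [h0, zero_mul] at h3
    have : (0 : ℝ) < 2 ^ ((v + 1) * Fintype.card (TQ a)) := by positivity
    exact this.ne h3
  field_simp

end avg

section jl

variable {v : ℕ}

/-- the affine functions modulo two -/
def AF (y : Finset (Fin v) → ℕ) : Prop := ∀ T, Even (y T + y ∅ + ∑ i ∈ T, (y {i} + y ∅))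

/-- the joint law -/
noncomputable def jl (y : Finset (Fin v) → ℕ) : ℝ :=
  if AF y then (1 / 2) ^ (v + 1) * ∏ T, (2 * law2 (y T)) else 0

theorem AF_iff (y : Finset (Fin v) → ℕ) :
    AF y ↔ ∀ T, (y T : ZMod 2) = y ∅ + ∑ i ∈ T, ((y {i} : ZMod 2) + y ∅) := by
  refine forall_congr' fun T => ?_
  rw [← ZMod.natCast_eq_zero_iff_even]
  push_cast
  have h5 : ∀ x y z : ZMod 2, x + y + z = 0 ↔ x = y + z := by decide
  exact h5 _ _ _

/-- the parameter of an affine function -/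
def ps (g : ZMod 2) (y : Finset (Fin v) → ℕ) : Fin (v + 1) → ZMod 2 :=
  Fin.cons ((y ∅ : ZMod 2) + g) fun i => (y {i} : ZMod 2) + y ∅

theorem aff_iff (g : ZMod 2) (y : Finset (Fin v) → ℕ) (ψ : Fin (v + 1) → ZMod 2) :
    (∀ T ∈ (univ : Finset (Finset (Fin v))), (y T : ZMod 2) = g + ∑ i, eT T i * ψ i) ↔ AF y ∧ ψ = ps g y := by
  rw [AF_iff]
  have e1 : ∀ x y z : ZMod 2, x = y + z ↔ z = x + y := by decide
  have e2 : ∀ x y z : ZMod 2, x = y + (x + y) := by decide
  constructor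
  · intro h
    have h0 := h ∅ (mem_univ _)
    rw [eT_sum, sum_empty, add_zero, e1] at h0
    have h1 : ∀ i : Fin v, ψ i.succ = (y {i} : ZMod 2) + y ∅ := by
      intro i
      have h2 := h {i} (mem_univ _)
      rw [eT_sum, sum_singleton, h0] at h2
      have e3 : ∀ a b c d : ZMod 2, a = b + (c + b + d) → d = a + c := by decide
      exact e3 _ _ _ _ h2
    constructor
    · intro T
      have h2 := h T (mem_univ _)
      rw [eT_sum, h0, sum_congr rfl fun i _ => h1 i] at h2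
      have e3 : ∀ a b c d : ZMod 2, a = b + (c + b + d) → a = c + d := by decide
      exact e3 _ _ _ _ h2
    · funext i
      refine Fin.cases ?_ (fun i => ?_) i
      · exact h0
      · exact h1 i
  · rintro ⟨h, rfl⟩ T _
    rw [eT_sum, h T]
    have e3 : ∀ b c d : ZMod 2, c + d = b + (c + b + d) := by decide
    exact e3 _ _ _

/-- the sum over the parameters -/
theorem sum_psi (g : ZMod 2) (y : Finset (Fin v) → ℕ) :
    ∑ ψ : Fin (v + 1) → ZMod 2, ∏ T : Finset (Fin v), Pool.Agent.Q269.SL.lawc (g + ∑ i, eT T i * ψ i) (y T) =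
      2 ^ (v + 1) * jl y := by
  have h1 : ∀ ψ : Fin (v + 1) → ZMod 2, ∏ T : Finset (Fin v), Pool.Agent.Q269.SL.lawc (g + ∑ i, eT T i * ψ i) (y T) =
      if ψ = ps g y then (if AF y then ∏ T, (2 * law2 (y T)) else 0) else 0 := by
    intro ψ
    simp only [lawc_eq]
    by_cases h2 : ∀ T ∈ (univ : Finset (Finset (Fin v))), (y T : ZMod 2) = g + ∑ i, eT T i * ψ i
    · obtain ⟨h3, h4⟩ := (aff_iff g y ψ).1 h2
      rw [if_pos h4, if_pos h3]
      exact prod_congr rfl fun T hT => if_pos (h2 T hT)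
    · have h3 : ¬ (AF y ∧ ψ = ps g y) := fun h => h2 ((aff_iff g y ψ).2 h)
      have h4 : (if ψ = ps g y then (if AF y then ∏ T, (2 * law2 (y T)) else 0) else (0 : ℝ)) = 0 := by
        by_cases h5 : ψ = ps g y
        · rw [if_pos h5, if_neg fun h6 => h3 ⟨h6, h5⟩]
        · rw [if_neg h5]
      rw [h4]
      push Not at h2
      obtain ⟨T, hT, h5⟩ := h2
      exact prod_eq_zero hT (if_neg h5)
  rw [sum_congr rfl fun ψ _ => h1 ψ, sum_ite_eq' univ (ps g y), if_pos (mem_univ _)]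
  unfold jl
  split_ifs
  · rw [← mul_assoc, ← mul_pow]
    norm_num
  · rw [mul_zero]

theorem jl_nonneg (y : Finset (Fin v) → ℕ) : 0 ≤ jl y := by
  unfold jl
  split_ifs
  · refine mul_nonneg (by positivity) (prod_nonneg fun T _ => ?_)
    have := Pool.Agent.Q269.SL.law2_nonneg (y T)
    linarith
  · exact le_rfl

theorem jl_zero : jl (0 : Finset (Fin v) → ℕ) = (1 / 2) ^ (v + 1) * (2 * law2 0) ^ 2 ^ v := by
  have h1 : AF (0 : Finset (Fin v) → ℕ) := by
    intro T
    simp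
  unfold jl
  rw [if_pos h1]
  congr 1
  show ∏ _T : Finset (Fin v), (2 * law2 0) = _
  rw [prod_const, card_univ, Fintype.card_finset, Fintype.card_fin]

/-- the joint law is a probability law -/
theorem hasSum_jl : HasSum (jl : (Finset (Fin v) → ℕ) → ℝ) 1 := by
  have h1 : HasSum (fun y : Finset (Fin v) → ℕ => ∑ ψ : Fin (v + 1) → ZMod 2, ∏ T : Finset (Fin v),
      Pool.Agent.Q269.SL.lawc (0 + ∑ i, eT T i * ψ i) (y T)) (∑ ψ : Fin (v + 1) → ZMod 2, ∏ _T : Finset (Fin v), (1 : ℝ)) :=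
    hasSum_sum fun ψ _ => hasSum_prod (fun T e => Pool.Agent.Q269.SL.lawc (0 + ∑ i, eT T i * ψ i) e) (fun _ => 1)
      (fun T e => lawc_nonneg _ _) fun T => hasSum_lawc _
  simp only [sum_psi, prod_const_one] at h1
  rw [sum_const, card_univ, Fintype.card_pi, prod_const, ZMod.card, card_univ, Fintype.card_fin, nsmul_eq_mul, mul_one] at h1
  have h2 := h1.mul_left ((2 : ℝ) ^ (v + 1))⁻¹
  have e1 : (fun y : Finset (Fin v) → ℕ => ((2 : ℝ) ^ (v + 1))⁻¹ * (2 ^ (v + 1) * jl y)) = jl := by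
    funext y
    rw [← mul_assoc, inv_mul_cancel₀ (by positivity), one_mul]
  rw [e1] at h2
  have e2 : ((2 : ℝ) ^ (v + 1))⁻¹ * ((2 ^ (v + 1) : ℕ) : ℝ) = 1 := by
    push_cast
    exact inv_mul_cancel₀ (by positivity)
  rw [e2] at h2
  exact h2

end jl

section WA

variable {k : Type} [Field k] [Fintype k] {R : Type} [Fintype R] {n : R → ℕ} {a : ∀ r, Fin (n r) → k[X]}
  {N : R → ℕ} (H : ∀ r, Geo (a r) (N r)) {v : ℕ}

/-- **the joint law of all the exponents** -/
theorem WA_eq (hCLN : S_CLN) (x : Finset (Fin v) × R → ℕ) : WA H x = ∏ r, jl fun T => x (T, r) := by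
  unfold WA
  rw [sum_Ph H hCLN fun ψ => ∏ y : Finset (Fin v) × R,
    Pool.Agent.Q269.SL.lawc (g0 H y.2 + ∑ i, eT y.1 i * ψ y.2 i) (x y)]
  have h1 : ∑ ψ : R → Fin (v + 1) → ZMod 2, ∏ y : Finset (Fin v) × R,
      Pool.Agent.Q269.SL.lawc (g0 H y.2 + ∑ i, eT y.1 i * ψ y.2 i) (x y) =
      ∏ r, ∑ ψ : Fin (v + 1) → ZMod 2, ∏ T : Finset (Fin v),
        Pool.Agent.Q269.SL.lawc (g0 H r + ∑ i, eT T i * ψ i) (x (T, r)) := by
    rw [prod_univ_sum, Fintype.piFinset_univ]
    exact sum_congr rfl fun ψ _ => Fintype.prod_prod_type_right _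
  rw [h1]
  simp only [sum_psi]
  rw [prod_mul_distrib, prod_const, card_univ, ← pow_mul]
  field_simp

/-- the mean of one exponent for given labels -/
noncomputable def mm (c : ZMod 2) : ℝ := ∑' e : ℕ, (e : ℝ) * Pool.Agent.Q269.SL.lawc c e

theorem mm_sum (c : ZMod 2) : Summable fun e : ℕ => (e : ℝ) * Pool.Agent.Q269.SL.lawc c e := by
  refine Summable.of_nonneg_of_le (fun e => mul_nonneg (Nat.cast_nonneg _) (lawc_nonneg _ _)) (fun e => ?_)
    (Pool.Agent.Q269.AV.summable_elaw.mul_left 2)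
  rw [lawc_eq]
  have h1 := Pool.Agent.Q269.SL.law2_nonneg e
  have h2 : (0 : ℝ) ≤ e := Nat.cast_nonneg _
  split_ifs
  · linarith
  · rw [mul_zero]
    positivity

theorem mm_add : mm 0 + mm 1 = 2 * Pool.Agent.Q269.AV.rho := by
  unfold mm Pool.Agent.Q269.AV.rho
  rw [← (mm_sum 0).tsum_add (mm_sum 1), ← tsum_mul_left]
  refine tsum_congr fun e => ?_
  rw [law2_lawc]
  ring

theorem mm_one {κ : Type} [Fintype κ] (c : κ → ZMod 2) (y₀ : κ) :
    ∑' x : κ → ℕ, (x y₀ : ℝ) * ∏ y, Pool.Agent.Q269.SL.lawc (c y) (x y) = mm (c y₀) := by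
  have g3 := hasSum_prod (fun y e => if y = y₀ then (e : ℝ) * Pool.Agent.Q269.SL.lawc (c y) e else Pool.Agent.Q269.SL.lawc (c y) e)
    (fun y => if y = y₀ then mm (c y) else 1)
    (fun y e => by
      have := lawc_nonneg (c y) e
      split_ifs
      · exact mul_nonneg (Nat.cast_nonneg _) this
      · exact this)
    (fun y => by
      split_ifs
      · exact (mm_sum (c y)).hasSum
      · exact hasSum_lawc _)
  have e1 : ∏ y, (if y = y₀ then mm (c y) else (1 : ℝ)) = mm (c y₀) := by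
    rw [prod_ite_eq' univ y₀]
    simp
  rw [← e1, ← g3.tsum_eq]
  refine tsum_congr fun x => ?_
  rw [← mul_prod_erase univ (fun y => Pool.Agent.Q269.SL.lawc (c y) (x y)) (mem_univ y₀),
    ← mul_prod_erase univ (fun y => if y = y₀ then (x y : ℝ) * Pool.Agent.Q269.SL.lawc (c y) (x y) else
      Pool.Agent.Q269.SL.lawc (c y) (x y)) (mem_univ y₀), if_pos rfl, mul_assoc]
  congr 2
  refine prod_congr rfl fun y hy => ?_
  rw [if_neg (ne_of_mem_erase hy)]

/-- the average of the means -/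
theorem avg_mm (hCLN : S_CLN) (T : Finset (Fin v)) (r : R) :
    (∑ χ : TQ a → Fin (v + 1) → ZMod 2, mm (g0 H r + ∑ i, eT T i * Ph χ r i)) / 2 ^ ((v + 1) * Fintype.card (TQ a)) =
      Pool.Agent.Q269.AV.rho := by
  rw [sum_Ph H hCLN fun ψ => mm (g0 H r + ∑ i, eT T i * ψ r i)]
  obtain ⟨δ, hδ⟩ : ∃ δ : R → Fin (v + 1) → ZMod 2, δ = fun r' i => if r' = r ∧ i = 0 then 1 else 0 := ⟨_, rfl⟩
  have e1 : ∀ ψ : R → Fin (v + 1) → ZMod 2, g0 H r + ∑ i, eT T i * (ψ + δ) r i = g0 H r + ∑ i, eT T i * ψ r i + 1 := by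
    intro ψ
    have h1 : ∑ i, eT T i * δ r i = 1 := by
      rw [eT_sum]
      have h2 : δ r 0 = 1 := by
        rw [hδ]
        exact if_pos ⟨rfl, rfl⟩
      have h3 : ∀ i ∈ T, δ r i.succ = 0 := by
        intro i _
        rw [hδ]
        exact if_neg fun h => Fin.succ_ne_zero i h.2
      rw [h2, sum_eq_zero h3, add_zero]
    simp only [Pi.add_apply, mul_add, sum_add_distrib]
    rw [h1]
    ring
  have e2 : ∑ ψ : R → Fin (v + 1) → ZMod 2, mm (g0 H r + ∑ i, eT T i * ψ r i) =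
      ∑ ψ : R → Fin (v + 1) → ZMod 2, mm (g0 H r + ∑ i, eT T i * ψ r i + 1) := by
    rw [← Equiv.sum_comp (Equiv.addRight δ)]
    exact sum_congr rfl fun ψ _ => by rw [Equiv.coe_addRight, e1]
  have e3 : ∀ x : ZMod 2, mm x + mm (x + 1) = 2 * Pool.Agent.Q269.AV.rho := by
    intro x
    have h1 : ∀ x : ZMod 2, x = 0 ∨ x = 1 := by decide
    rcases h1 x with h | h
    · rw [h, zero_add]
      exact mm_add
    · rw [h, show (1 + 1 : ZMod 2) = 0 by decide, add_comm]
      exact mm_add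
  have e4 : 2 * ∑ ψ : R → Fin (v + 1) → ZMod 2, mm (g0 H r + ∑ i, eT T i * ψ r i) =
      2 ^ ((v + 1) * Fintype.card R) * (2 * Pool.Agent.Q269.AV.rho) := by
    rw [two_mul]
    conv_lhs => rw [e2]
    conv_lhs => arg 1; rw [← e2]
    rw [← sum_add_distrib, sum_congr rfl fun ψ _ => e3 _, sum_const, card_univ, nsmul_eq_mul]
    congr 1
    rw [← Nat.card_eq_fintype_card, Nat.card_fun, Nat.card_fun, Nat.card_eq_fintype_card, Nat.card_eq_fintype_card,
      Nat.card_eq_fintype_card, ZMod.card, Fintype.card_fin, ← pow_mul]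
    push_cast
    rfl
  rw [div_eq_iff (by positivity)]
  linarith

end WA

end Pool.Agent.Q269.DY
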