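import Pool.Agent.Q269.DY.B

/-!
# Project DY: squarefree parts, tuples of divisors, independence
-/

set_option autoImplicit false
set_option linter.all false
set_option maxHeartbeats 400000

open scoped Classical
open Finset Polynomial Filter Topology

namespace Pool.Agent.Q269.DY

open Pool.Agent.Q269.DX Pool.Agent.Q269.DX.JQ Pool.Agent.Q269.DX.LD
open Pool.Agent.Y164.HG (Geo Del Tau QQ)
open Pool.Agent.Q269.GR (Dn mem_Dn' pr F2 S_PRD)
open Pool.Agent.Q269.GJ (Ip)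
open Pool.Agent.Q269.SX (kD sgD ex S_KDR wt)

section sqp

variable {k : Type} [Field k]

/-- the squarefree part -/
noncomputable def sqp (f : k[X]) : k[X] :=
  ∏ᶠ P ∈ {P : k[X] | P.Monic ∧ Irreducible P ∧ Odd (multiplicity P f)}, P

theorem emul_sf {P f : k[X]} (hP : Irreducible P) (hf : Squarefree f) :
    emultiplicity P f = ((if P ∣ f then 1 else 0 : ℕ) : ℕ∞) := by
  by_cases h : P ∣ f
  · rw [if_pos h]
    have h1 := emultiplicity_pos_of_dvd h
    rcases ((squarefree_iff_emultiplicity_le_one f).1 hf) P with h2 | h2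
    · exact le_antisymm h2 (Order.one_le_iff_pos.2 h1)
    · exact absurd h2 hP.not_isUnit
  · rw [if_neg h]
    exact emultiplicity_eq_zero.2 h

theorem emul_prod {ι : Type} (s : Finset ι) {P : k[X]} (hP : Irreducible P) (f : ι → k[X]) (hf : ∀ i ∈ s, Squarefree (f i)) :
    emultiplicity P (∏ i ∈ s, f i) = ((∑ i ∈ s, (if P ∣ f i then 1 else 0) : ℕ) : ℕ∞) := by
  rw [Finset.emultiplicity_prod hP.prime, sum_congr rfl fun i hi => emul_sf hP (hf i hi)]
  push_cast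
  rfl

end sqp

section dd

variable {k : Type} [Field k] [Fintype k] {Δ D : k[X]} {m v : ℕ}

/-- the divisors of a tuple -/
noncomputable def DD {D : k[X]} (τ : Ip D → Fin (v + 1) → ZMod 2) (i : Fin (v + 1)) : k[X] := d1 fun P => τ P i

theorem DD_dv (τ : Ip D → Fin (v + 1) → ZMod 2) (i : Fin (v + 1)) : DD τ i = dv (Pi.single i 1) τ := by
  rw [dv_d1]
  unfold DD
  congr 1
  funext P
  rw [sum_eq_single i]
  · rw [Pi.single_eq_same, one_mul]
  · intro j _ hj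
    rw [Pi.single_eq_of_ne hj, zero_mul]
  · intro h
    exact absurd (mem_univ i) h

theorem DD_mem (hPRD : S_PRD) (hΔ : Δ ≠ 0) (hD : D ∈ Dn Δ m) (τ : Ip D → Fin (v + 1) → ZMod 2) (i : Fin (v + 1)) :
    (DD τ i).Monic ∧ DD τ i ∣ D ∧ Squarefree (DD τ i) := by
  rw [DD_dv]
  exact ⟨dv_monic hPRD hΔ hD _ τ, dv_dvd hPRD hΔ hD _ τ, (mem_Dn'.1 (dv_mem hPRD hΔ hD _ τ)).2.1⟩

theorem DD_dvd (hPRD : S_PRD) (hΔ : Δ ≠ 0) (hD : D ∈ Dn Δ m) (τ : Ip D → Fin (v + 1) → ZMod 2) (i : Fin (v + 1))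
    (P : Ip D) : P.1 ∣ DD τ i ↔ τ P i ≠ 0 := d1_dvd_iff hPRD hΔ hD _ P

theorem DD_inj (hPRD : S_PRD) (hΔ : Δ ≠ 0) (hD : D ∈ Dn Δ m) :
    Function.Injective (DD : (Ip D → Fin (v + 1) → ZMod 2) → Fin (v + 1) → k[X]) := by
  intro τ τ' h
  funext P i
  exact congrFun (d1_inj hPRD hΔ hD (congrFun h i)) P

theorem F2_ite : ∀ x : ZMod 2, (if x ≠ 0 then (1 : ZMod 2) else 0) = x := by decide

/-- the multiplicities of a product -/
theorem mul_DD (hPRD : S_PRD) (hΔ : Δ ≠ 0) (hD : D ∈ Dn Δ m) (τ : Ip D → Fin (v + 1) → ZMod 2) (s : Finset (Fin (v + 1)))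
    {P : k[X]} (hP : Irreducible P) :
    emultiplicity P (∏ i ∈ s, DD τ i) = ((∑ i ∈ s, (if P ∣ DD τ i then 1 else 0) : ℕ) : ℕ∞) :=
  emul_prod s hP (DD τ) fun i _ => (DD_mem hPRD hΔ hD τ i).2.2

theorem mul_cast (hPRD : S_PRD) (hΔ : Δ ≠ 0) (hD : D ∈ Dn Δ m) (τ : Ip D → Fin (v + 1) → ZMod 2) (s : Finset (Fin (v + 1)))
    (P : Ip D) : ((∑ i ∈ s, (if P.1 ∣ DD τ i then 1 else 0) : ℕ) : ZMod 2) = ∑ i ∈ s, τ P i := by
  push_cast
  refine sum_congr rfl fun i _ => ?_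
  rw [← F2_ite (τ P i)]
  by_cases h : τ P i ≠ 0
  · rw [if_pos ((DD_dvd hPRD hΔ hD τ i P).2 h), if_pos h]
  · rw [if_neg fun h' => h ((DD_dvd hPRD hΔ hD τ i P).1 h'), if_neg h]

/-- the index set -/
def iT (T : Finset (Fin v)) : Finset (Fin (v + 1)) := insert 0 (T.map ⟨Fin.succ, Fin.succ_injective v⟩)

theorem iT_prod {α : Type} [CommMonoid α] (T : Finset (Fin v)) (g : Fin (v + 1) → α) :
    ∏ i ∈ iT T, g i = g 0 * ∏ i ∈ T, g i.succ := by
  unfold iT
  rw [prod_insert, prod_map]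
  · rfl
  · rw [Finset.mem_map]
    rintro ⟨i, -, h⟩
    exact Fin.succ_ne_zero i h

theorem iT_sum {α : Type} [AddCommMonoid α] (T : Finset (Fin v)) (g : Fin (v + 1) → α) :
    ∑ i ∈ iT T, g i = g 0 + ∑ i ∈ T, g i.succ := by
  unfold iT
  rw [sum_insert, sum_map]
  · rfl
  · rw [Finset.mem_map]
    rintro ⟨i, -, h⟩
    exact Fin.succ_ne_zero i h

/-- **the squarefree part of a product** -/
theorem sqp_DD (hPRD : S_PRD) (hΔ : Δ ≠ 0) (hD : D ∈ Dn Δ m) (τ : Ip D → Fin (v + 1) → ZMod 2) (T : Finset (Fin v)) :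
    sqp (DD τ 0 * ∏ i ∈ T, DD τ i.succ) = dv (eT T) τ := by
  have h1 : {P : k[X] | P.Monic ∧ Irreducible P ∧ Odd (multiplicity P (DD τ 0 * ∏ i ∈ T, DD τ i.succ))} =
      ((((univ : Finset (Ip D)).filter fun P => ¬ ∑ i, eT T i * τ P i = 0).image Subtype.val : Finset k[X]) : Set k[X]) := by
    ext P
    rw [Finset.coe_image, Set.mem_image, ← iT_prod T (DD τ)]
    constructor
    · rintro ⟨g1, g2, g3⟩
      rw [multiplicity_eq_of_emultiplicity_eq_some (mul_DD hPRD hΔ hD τ (iT T) g2)] at g3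
      have g4 : P ∈ pr D := by
        refine (((hPRD k Δ hΔ).2.1 m D hD).2.2 P).2 ⟨g1, g2, ?_⟩
        by_contra hno
        rw [sum_eq_zero fun i _ => if_neg fun h => hno (h.trans (DD_mem hPRD hΔ hD τ i).2.1)] at g3
        exact absurd g3 (by decide)
      refine ⟨⟨P, g4⟩, ?_, rfl⟩
      rw [mem_coe, mem_filter]
      refine ⟨mem_univ _, ?_⟩
      rw [eT_sum, ← iT_sum T fun i => τ ⟨P, g4⟩ i, ← mul_cast hPRD hΔ hD τ (iT T) ⟨P, g4⟩, (ZMod.natCast_eq_one_iff_odd).2 g3]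
      exact one_ne_zero
    · rintro ⟨P', hP', rfl⟩
      rw [mem_coe, mem_filter, eT_sum, ← iT_sum T fun i => τ P' i, ← mul_cast hPRD hΔ hD τ (iT T) P'] at hP'
      obtain ⟨g1, g2, -⟩ := ip_mem hPRD hΔ hD P'
      refine ⟨g1, g2, ?_⟩
      rw [multiplicity_eq_of_emultiplicity_eq_some (mul_DD hPRD hΔ hD τ (iT T) g2), ← ZMod.natCast_eq_one_iff_odd]
      have h2 : ∀ x : ZMod 2, ¬ x = 0 → x = 1 := by decide
      exact h2 _ hP'.2
  unfold sqp dv
  rw [h1, finprod_mem_coe_finset, prod_image fun x _ y _ h => Subtype.ext h, prod_filter]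
  exact prod_congr rfl fun P _ => by by_cases h : ∑ i, eT T i * τ P i = 0 <;> simp [h]

/-- products which are squares -/
theorem sq_DD (hPRD : S_PRD) (hΔ : Δ ≠ 0) (hD : D ∈ Dn Δ m) (τ : Ip D → Fin (v + 1) → ZMod 2) (s : Finset (Fin (v + 1)))
    (h : IsSquare (∏ i ∈ s, DD τ i)) (P : Ip D) : ∑ i ∈ s, τ P i = 0 := by
  obtain ⟨g, hg⟩ := h
  have h2 := (ip_mem hPRD hΔ hD P).2.1
  have h1 := mul_DD hPRD hΔ hD τ s h2
  rw [hg, emultiplicity_mul h2.prime] at h1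
  have h3 : emultiplicity P.1 g ≠ ⊤ := by
    intro h4
    rw [h4, top_add] at h1
    exact ENat.top_ne_coe _ h1
  obtain ⟨c, hc⟩ := ENat.ne_top_iff_exists.1 h3
  rw [← hc] at h1
  have h5 : c + c = ∑ i ∈ s, (if P.1 ∣ DD τ i then 1 else 0) := by exact_mod_cast h1
  rw [← mul_cast hPRD hΔ hD τ s P, ← h5]
  push_cast
  have : ∀ x : ZMod 2, x + x = 0 := by decide
  exact this _

end dd

section count

variable {v : ℕ} {P : Type} [Fintype P]

theorem half_card (T : Finset (Fin v)) (hT : T.Nonempty) :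
    ((univ : Finset (Fin (v + 1) → ZMod 2)).filter fun x => ∑ i ∈ T, x i.succ = 0).card ≤ 2 ^ v := by
  obtain ⟨i0, hi0⟩ := hT
  have h1 : ((univ : Finset (Fin (v + 1) → ZMod 2)).filter fun x => ∑ i ∈ T, x i.succ = 0).card ≤
      ((univ : Finset (Fin (v + 1) → ZMod 2)).filter fun x => ¬ ∑ i ∈ T, x i.succ = 0).card := by
    refine card_le_card_of_injOn (fun x => x + Pi.single i0.succ 1) ?_ ?_
    · intro x hx
      have hx' := (mem_filter.1 hx).2
      rw [mem_coe, mem_filter]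
      refine ⟨mem_univ _, ?_⟩
      simp only [Pi.add_apply, sum_add_distrib]
      rw [hx', zero_add]
      have h2 : ∑ i ∈ T, (Pi.single i0.succ 1 : Fin (v + 1) → ZMod 2) i.succ = 1 := by
        rw [sum_eq_single i0]
        · rw [Pi.single_eq_same]
        · intro j _ hj
          rw [Pi.single_eq_of_ne fun h => hj (Fin.succ_injective v h)]
        · intro h
          exact absurd hi0 h
      rw [h2]
      exact one_ne_zero
    · intro x _ y _ h
      exact add_right_cancel h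
  have h2 := card_filter_add_card_filter_not (s := (univ : Finset (Fin (v + 1) → ZMod 2)))
    (p := fun x => ∑ i ∈ T, x i.succ = 0)
  rw [card_univ, Fintype.card_pi, prod_const, ZMod.card, card_univ, Fintype.card_fin, pow_succ] at h2
  omega

theorem bad_card (T : Finset (Fin v)) (hT : T.Nonempty) :
    ((univ : Finset (P → Fin (v + 1) → ZMod 2)).filter fun τ => ∀ p, ∑ i ∈ T, τ p i.succ = 0).card ≤
      (2 ^ v) ^ Fintype.card P := by
  have h1 : ((univ : Finset (P → Fin (v + 1) → ZMod 2)).filter fun τ => ∀ p, ∑ i ∈ T, τ p i.succ = 0) =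
      Fintype.piFinset fun _ : P => (univ : Finset (Fin (v + 1) → ZMod 2)).filter fun x => ∑ i ∈ T, x i.succ = 0 := by
    ext τ
    rw [mem_filter, Fintype.mem_piFinset]
    constructor
    · rintro ⟨-, h⟩ p
      exact mem_filter.2 ⟨mem_univ _, h p⟩
    · intro h
      exact ⟨mem_univ _, fun p => (mem_filter.1 (h p)).2⟩
  rw [h1, Fintype.card_piFinset, prod_const, card_univ]
  exact pow_le_pow_left₀ (Nat.zero_le _) (half_card T hT) _

theorem bad_card' (T : Finset (Fin v)) (hT : T.Nonempty) (F : Fintype (P → Fin (v + 1) → ZMod 2))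
    (i : DecidablePred fun τ : P → Fin (v + 1) → ZMod 2 => ∀ p, ∑ i ∈ T, τ p i.succ = 0) :
    (@Finset.filter _ (fun τ : P → Fin (v + 1) → ZMod 2 => ∀ p, ∑ i ∈ T, τ p i.succ = 0) i (@Finset.univ _ F)).card ≤
      (2 ^ v) ^ Fintype.card P :=
  (fil_univ F _ _ _ i _ fun τ => Iff.rfl).trans_le (bad_card T hT)

end count

section tup

variable {k : Type} [Field k] [Fintype k] {R : Type} [Fintype R] {n : R → ℕ} {a : ∀ r, Fin (n r) → k[X]}
  {N : R → ℕ} (H : ∀ r, Geo (a r) (N r)) {D : k[X]} {m v : ℕ}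

/-- the tuples of divisors of `D` prime to the differences, `deg d 0 + N r` odd for all `r`, the other degrees even -/
def TuS (a : ∀ r, Fin (n r) → k[X]) (N : R → ℕ) (v : ℕ) (D : k[X]) : Set (Fin (v + 1) → k[X]) :=
  {d | (∀ i, (d i).Monic ∧ d i ∣ D ∧ ∀ r i' j, i' ≠ j → IsCoprime (d i) (a r i' - a r j)) ∧
    (∀ r, Odd ((d 0).natDegree + N r)) ∧ ∀ i : Fin v, Even (d i.succ).natDegree}

/-- the tuples as a finite set -/
noncomputable def Tu (a : ∀ r, Fin (n r) → k[X]) (v : ℕ) (c : ZMod 2) (D : k[X]) : Finset (Fin (v + 1) → k[X]) :=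
  (Al a v c D).image DD

include H in
theorem Tu_card (hPRD : S_PRD) (hD : D ∈ Dn (∏ r, Del (a r)) m) (c : ZMod 2) : (Tu a v c D).card = (Al a v c D).card :=
  card_image_of_injective _ (DD_inj hPRD (prd_ne H) hD)

include H in
theorem Tu_sum (hPRD : S_PRD) (hD : D ∈ Dn (∏ r, Del (a r)) m) (c : ZMod 2) (g : (Fin (v + 1) → k[X]) → ℝ) :
    ∑ d ∈ Tu a v c D, g d = ∑ τ ∈ Al a v c D, g (DD τ) :=
  sum_image fun x _ y _ h => DD_inj hPRD (prd_ne H) hD h

/-- the parity of the degree of a combination -/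
theorem deg_lbs {Δ : k[X]} (hPRD : S_PRD) (hΔ : Δ ≠ 0) (hD : D ∈ Dn Δ m) (e : Fin (v + 1) → ZMod 2)
    (τ : Ip D → Fin (v + 1) → ZMod 2) :
    (((dv e τ).natDegree : ℕ) : ZMod 2) = ∑ i, e i * lbs (lbD a D) τ i none := by
  rw [dv_deg hPRD hΔ hD]
  have h1 := lbf_lbs (fun _ : Unit => e) (lbD a D) τ () none
  rw [lbf_apply] at h1
  rw [h1]
  rfl

include H in
theorem DD_par (hPRD : S_PRD) (hD : D ∈ Dn (∏ r, Del (a r)) m) (c : ZMod 2) (τ : Ip D → Fin (v + 1) → ZMod 2) :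
    τ ∈ Al a v c D ↔ ∀ i, (((DD τ i).natDegree : ℕ) : ZMod 2) = if i = 0 then c else 0 := by
  rw [mem_Al]
  refine forall_congr' fun i => ?_
  have h1 : (((DD τ i).natDegree : ℕ) : ZMod 2) = lbs (lbD a D) τ i none := by
    rw [DD_dv, deg_lbs (a := a) hPRD (prd_ne H) hD, sum_eq_single i]
    · rw [Pi.single_eq_same, one_mul]
    · intro j _ hj
      rw [Pi.single_eq_of_ne hj, zero_mul]
    · intro h
      exact absurd (mem_univ i) h
  rw [h1]

include H in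
theorem mem_Tu (hPRD : S_PRD) (hD : D ∈ Dn (∏ r, Del (a r)) m) (c : ZMod 2) (d : Fin (v + 1) → k[X]) :
    d ∈ Tu a v c D ↔ (∀ i, (d i).Monic ∧ d i ∣ D) ∧ ∀ i, (((d i).natDegree : ℕ) : ZMod 2) = if i = 0 then c else 0 := by
  have hΔ := prd_ne H
  unfold Tu
  rw [mem_image]
  constructor
  · rintro ⟨τ, hτ, rfl⟩
    exact ⟨fun i => ⟨(DD_mem hPRD hΔ hD τ i).1, (DD_mem hPRD hΔ hD τ i).2.1⟩, (DD_par H hPRD hD c τ).1 hτ⟩
  · rintro ⟨h1, h2⟩
    have h3 : ∀ i, ∃ σ : Ip D → ZMod 2, d1 σ = d i := fun i => d1_surj hPRD hΔ hD (h1 i).1 (h1 i).2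
    choose σ hσ using h3
    have h4 : DD (fun P i => σ i P) = d := by
      funext i
      exact hσ i
    refine ⟨fun P i => σ i P, ?_, h4⟩
    rw [DD_par H hPRD hD, h4]
    exact h2

include H in
theorem tuS_eq (hPRD : S_PRD) (hD : D ∈ Dn (1 : k[X]) m) (c : ZMod 2) (r₀ : R)
    (hc : ∀ r, c + (N r : ZMod 2) = 1) : TuS a N v D = ((Tu a v c (dp (∏ r, Del (a r)) D) : Finset _) : Set _) := by
  ext d
  rw [mem_coe, mem_Tu H hPRD (dp_mem hPRD hD)]
  have h1 : (∀ i, (((d i).natDegree : ℕ) : ZMod 2) = if i = 0 then c else 0) ↔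
      (∀ r, Odd ((d 0).natDegree + N r)) ∧ ∀ i : Fin v, Even (d i.succ).natDegree := by
    rw [odd_iff c r₀ hc]
    constructor
    · intro h
      refine ⟨by rw [h 0, if_pos rfl], fun i => ?_⟩
      rw [← ZMod.natCast_eq_zero_iff_even, h i.succ, if_neg (Fin.succ_ne_zero i)]
    · rintro ⟨h1, h2⟩ i
      refine Fin.cases ?_ (fun i => ?_) i
      · rw [h1, if_pos rfl]
      · rw [(ZMod.natCast_eq_zero_iff_even).2 (h2 i), if_neg (Fin.succ_ne_zero i)]
  rw [h1]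
  show (_ ∧ _ ∧ _) ↔ _
  refine and_congr_left fun _ => forall_congr' fun i => ?_
  rw [dvd_dp_iff hPRD (prd_ne H) hD, cop_iff]

/-- the mean over a set -/
theorem mean_coe' {α : Type} (X : Finset α) (f : α → ℝ) :
    (∑ᶠ d ∈ ((X : Finset α) : Set α), f d) / ((((X : Finset α) : Set α).ncard : ℕ) : ℝ) = (∑ d ∈ X, f d) / (X.card : ℝ) := by
  rw [finsum_mem_coe_finset, Set.ncard_coe_finset]

include H in
/-- the squarefree parts are divisors -/
theorem part_mem (hPRD : S_PRD) (hKDR : S_KDR) (hD : D ∈ Dn (∏ r, Del (a r)) m) (c : ZMod 2) (τ : Ip D → Fin (v + 1) → ZMod 2)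
    (hτ : τ ∈ Al a v c D) (T : Finset (Fin v)) : dv (eT T) τ ∈ dva H c D := by
  have hΔ := prd_ne H
  rw [mem_dva H hPRD hKDR hD]
  refine ⟨⟨dv_monic hPRD hΔ hD _ τ, dv_dvd hPRD hΔ hD _ τ⟩, ?_⟩
  rw [deg_lbs (a := a) hPRD hΔ hD, eT_sum]
  rw [mem_Al] at hτ
  rw [hτ 0, if_pos rfl, sum_eq_zero fun i _ => ?_, add_zero]
  rw [hτ i.succ, if_neg (Fin.succ_ne_zero i)]

include H in
/-- **almost all tuples are independent modulo squares** -/
theorem indep_card (hCLN : S_CLN) (hPRD : S_PRD) (hD : D ∈ Dn (∏ r, Del (a r)) m) (hs : Spn (lbD a D)) (c : ZMod 2)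
    (p : (Ip D → Fin (v + 1) → ZMod 2) → Prop) (ip : DecidablePred p)
    (hp : ∀ τ, p τ → ∃ T : Finset (Fin v), T.Nonempty ∧ IsSquare (∏ i ∈ T, DD τ i.succ)) :
    (((@Finset.filter _ p ip (Al a v c D)).card : ℕ) : ℝ) * 2 ^ Fintype.card (Ip D) ≤
      2 ^ (2 * v + 1) * ((Al a v c D).card : ℝ) := by
  have hΔ := prd_ne H
  have h1 : @Finset.filter _ p ip (Al a v c D) ⊆ ((univ : Finset (Finset (Fin v))).filter fun T => T.Nonempty).biUnion fun T =>
      (univ : Finset (Ip D → Fin (v + 1) → ZMod 2)).filter fun τ => ∀ P, ∑ i ∈ T, τ P i.succ = 0 := by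
    intro τ hτ
    obtain ⟨T, hT, hsq⟩ := hp τ (mem_filter.1 hτ).2
    rw [mem_biUnion]
    refine ⟨T, mem_filter.2 ⟨mem_univ _, hT⟩, mem_filter.2 ⟨mem_univ _, fun P => ?_⟩⟩
    have h2 : ∏ i ∈ T, DD τ i.succ = ∏ i ∈ T.map ⟨Fin.succ, Fin.succ_injective v⟩, DD τ i := by
      rw [prod_map]
      rfl
    rw [h2] at hsq
    have h3 := sq_DD hPRD hΔ hD τ _ hsq P
    rw [sum_map] at h3
    exact h3
  have h2 : (@Finset.filter _ p ip (Al a v c D)).card ≤ 2 ^ v * (2 ^ v) ^ Fintype.card (Ip D) := by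
    refine (card_le_card h1).trans (card_biUnion_le.trans ?_)
    have h5 : ∀ T ∈ (univ : Finset (Finset (Fin v))).filter fun T => T.Nonempty,
        ((univ : Finset (Ip D → Fin (v + 1) → ZMod 2)).filter fun τ => ∀ P, ∑ i ∈ T, τ P i.succ = 0).card ≤
          (2 ^ v) ^ Fintype.card (Ip D) := fun T hT => bad_card' T (mem_filter.1 hT).2 _ _
    refine (sum_le_sum h5).trans ?_
    rw [sum_const, smul_eq_mul]
    refine Nat.mul_le_mul_right _ ?_
    refine (card_le_univ _).trans (le_of_eq ?_)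
    rw [Fintype.card_finset, Fintype.card_fin]
  have h3 := Al_num (v := v) hCLN hs c
  have h4 : (@Finset.filter _ p ip (Al a v c D)).card * 2 ^ Fintype.card (Ip D) ≤ 2 ^ (2 * v + 1) * (Al a v c D).card := by
    calc (@Finset.filter _ p ip (Al a v c D)).card * 2 ^ Fintype.card (Ip D)
        ≤ 2 ^ v * (2 ^ v) ^ Fintype.card (Ip D) * 2 ^ Fintype.card (Ip D) := Nat.mul_le_mul_right _ h2
      _ = 2 ^ v * 2 ^ ((v + 1) * Fintype.card (Ip D)) := by
          rw [← pow_mul]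
          ring
      _ = 2 ^ (2 * v + 1) * (Al a v c D).card := by
          rw [← h3]
          ring
  exact_mod_cast h4

end tup

end Pool.Agent.Q269.DY
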