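import Pool.Agent.Q269.DY.C

/-!
# Project DY: means over the tuples of divisors
-/

set_option autoImplicit false
set_option linter.all false
set_option maxHeartbeats 400000

open scoped Classical
open Finset Polynomial Filter Topology

namespace Pool.Agent.Q269.DY

open Pool.Agent.Q269.DX Pool.Agent.Q269.DX.JQ Pool.Agent.Q269.DX.LD
open Pool.Agent.Y164.HG (Geo Del Tau QQ)
open Pool.Agent.Q269.GR (Dn mem_Dn' pr F2 S_PRD)
open Pool.Agent.Q269.GJ (Ip)
open Pool.Agent.Q269.SX (kD sgD ex S_KDR wt hasSum_prod mom_lawc)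
open Pool.Agent.Q269.SL (law2 lawc_nonneg)

/-- the exchange of the arguments -/
def sw (R J : Type) : (J × R → ℕ) ≃ (R → J → ℕ) where
  toFun x r j := x (j, r)
  invFun y p := y p.2 p.1
  left_inv _ := rfl
  right_inv _ := rfl

section

variable {k : Type} [Field k] [Fintype k] {R : Type} [Fintype R] {n : R → ℕ} {a : ∀ r, Fin (n r) → k[X]}
  {N : R → ℕ} (H : ∀ r, Geo (a r) (N r)) {v : ℕ}

/-- the exponents of a tuple -/
noncomputable def exs (d : Fin (v + 1) → k[X]) (r : R) (T : Finset (Fin v)) : ℕ := ex (H r) (sqp (d 0 * ∏ i ∈ T, d i.succ))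

theorem exs_DD (hPRD : S_PRD) {D : k[X]} {m : ℕ} (hD : D ∈ Dn (∏ r, Del (a r)) m) (τ : Ip D → Fin (v + 1) → ZMod 2) :
    exs H (DD τ) = sw R (Finset (Fin v)) (xe H eT τ) := by
  funext r T
  unfold exs
  rw [sqp_DD hPRD (prd_ne H) hD τ T]
  rfl

/-- the limit of the means for a function -/
noncomputable def LL (f : (R → Finset (Fin v) → ℕ) → ℝ) : ℝ := ∑' x : R → Finset (Fin v) → ℕ, f x * ∏ r, jl (x r)

/-- **means over the tuples** -/
theorem mean_Tu (hCLN : S_CLN) (hPRD : S_PRD) (hKDR : S_KDR) {l : Filter k[X]}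
    (hN : Nice H (eT (v := v)) l) (c : ZMod 2) (hc : ∀ r, c + (N r : ZMod 2) = 1)
    (f : (R → Finset (Fin v) → ℕ) → ℝ) (u : ℕ) (C : ℝ) (hf : ∀ x, |f x| ≤ C * ∏ r, ∏ T, ((2 : ℝ) ^ u) ^ x r T) :
    (Summable fun x : R → Finset (Fin v) → ℕ => f x * ∏ r, jl (x r)) ∧
    LL f = (∑ χ : TQ a → Fin (v + 1) → ZMod 2,
      ∑' x : Finset (Fin v) × R → ℕ, f (sw R _ x) * ∏ y : Finset (Fin v) × R,
        Pool.Agent.Q269.SL.lawc (g0 H y.2 + ∑ i, eT y.1 i * Ph χ y.2 i) (x y)) / 2 ^ ((v + 1) * Fintype.card (TQ a)) ∧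
    Tendsto (fun D => (∑ d ∈ Tu a v c D, f (exs H d)) / ((Tu a v c D).card : ℝ)) l (nhds (LL f)) := by
  obtain ⟨h1, h2, h3⟩ := mean_Al H hCLN hPRD hKDR hN c hc (fun x => f (sw R _ x)) u C (fun x => by
    refine (hf _).trans (le_of_eq ?_)
    congr 1
    unfold wt
    rw [Fintype.prod_prod_type_right]
    rfl)
  have e1 : (fun x : Finset (Fin v) × R → ℕ => f (sw R _ x) * WA H x) =
      (fun x : R → Finset (Fin v) → ℕ => f x * ∏ r, jl (x r)) ∘ sw R (Finset (Fin v)) := by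
    funext x
    rw [WA_eq H hCLN]
    rfl
  have e2 : (∑' x : Finset (Fin v) × R → ℕ, f (sw R _ x) * WA H x) = LL f := by
    rw [e1]
    exact (sw R (Finset (Fin v))).tsum_eq fun x : R → Finset (Fin v) → ℕ => f x * ∏ r, jl (x r)
  rw [e1] at h1
  rw [e2] at h2 h3
  refine ⟨(sw R (Finset (Fin v))).summable_iff.1 h1, h2, ?_⟩
  refine h3.congr' ?_
  filter_upwards [hN.mem] with D hD
  rw [Tu_card H hPRD hD, Tu_sum H hPRD hD]
  congr 1
  refine sum_congr rfl fun τ _ => ?_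
  rw [exs_DD H hPRD hD]

theorem avg_const (x : ℝ) : (∑ _χ : TQ a → Fin (v + 1) → ZMod 2, x) / 2 ^ ((v + 1) * Fintype.card (TQ a)) = x := by
  rw [sum_const, card_univ, card_chi, nsmul_eq_mul]
  push_cast
  field_simp

/-- **the moments** -/
theorem mom_Tu (hCLN : S_CLN) (hPRD : S_PRD) (hKDR : S_KDR) {l : Filter k[X]}
    (hN : Nice H (eT (v := v)) l) (c : ZMod 2) (hc : ∀ r, c + (N r : ZMod 2) = 1) (u : R → Finset (Fin v) → ℕ) :
    Tendsto (fun D => (∑ d ∈ Tu a v c D, ∏ r, ∏ T, ((2 : ℝ) ^ exs H d r T) ^ u r T) / ((Tu a v c D).card : ℝ)) l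
      (nhds (∏ r, ∏ T, ∏ i ∈ range (u r T), (1 + (2 : ℝ) ^ (i + 1)))) := by
  obtain ⟨U, hU⟩ : ∃ U : ℕ, ∀ r T, u r T ≤ U := ⟨∑ r, ∑ T, u r T, fun r T =>
    (single_le_sum (f := fun T => u r T) (fun _ _ => Nat.zero_le _) (mem_univ T)).trans
      (single_le_sum (f := fun r => ∑ T, u r T) (fun _ _ => Nat.zero_le _) (mem_univ r))⟩
  obtain ⟨-, g2, g3⟩ := mean_Tu H hCLN hPRD hKDR hN c hc (fun x => ∏ r, ∏ T, ((2 : ℝ) ^ x r T) ^ u r T) U 1 (fun x => by
    rw [one_mul, abs_of_nonneg (by positivity)]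
    refine prod_le_prod (fun r _ => by positivity) fun r _ => prod_le_prod (fun T _ => by positivity) fun T _ => ?_
    rw [← pow_mul, ← pow_mul]
    exact pow_le_pow_right₀ (by norm_num) (by rw [mul_comm]; exact Nat.mul_le_mul_right _ (hU r T)))
  have e1 : ∀ χ : TQ a → Fin (v + 1) → ZMod 2, (∑' x : Finset (Fin v) × R → ℕ,
      (∏ r, ∏ T, ((2 : ℝ) ^ sw R _ x r T) ^ u r T) * ∏ y : Finset (Fin v) × R,
        Pool.Agent.Q269.SL.lawc (g0 H y.2 + ∑ i, eT y.1 i * Ph χ y.2 i) (x y)) =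
      ∏ r, ∏ T, ∏ i ∈ range (u r T), (1 + (2 : ℝ) ^ (i + 1)) := by
    intro χ
    have g4 := hasSum_prod (fun (y : Finset (Fin v) × R) e =>
      Pool.Agent.Q269.SL.lawc (g0 H y.2 + ∑ i, eT y.1 i * Ph χ y.2 i) e * ((2 : ℝ) ^ u y.2 y.1) ^ e)
      (fun y => ∏ i ∈ range (u y.2 y.1), (1 + (2 : ℝ) ^ (i + 1)))
      (fun y e => mul_nonneg (lawc_nonneg _ _) (by positivity)) (fun y => mom_lawc _ _)
    rw [Fintype.prod_prod_type_right] at g4
    rw [← g4.tsum_eq]
    refine tsum_congr fun x => ?_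
    rw [prod_mul_distrib, mul_comm]
    congr 1
    rw [Fintype.prod_prod_type_right]
    refine prod_congr rfl fun r _ => prod_congr rfl fun T _ => ?_
    show ((2 : ℝ) ^ x (T, r)) ^ u r T = _
    rw [← pow_mul, ← pow_mul, mul_comm]
  rw [g2, sum_congr rfl fun χ _ => e1 χ, avg_const] at g3
  exact g3

/-- **the mean of the exponents** -/
theorem rho_Tu (hCLN : S_CLN) (hPRD : S_PRD) (hKDR : S_KDR) {l : Filter k[X]}
    (hN : Nice H (eT (v := v)) l) (c : ZMod 2) (hc : ∀ r, c + (N r : ZMod 2) = 1) (r : R) :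
    Tendsto (fun D => (∑ d ∈ Tu a v c D, ∑ T, (exs H d r T : ℝ)) / ((Tu a v c D).card : ℝ)) l
      (nhds (2 ^ v * Pool.Agent.Q269.AV.rho)) := by
  have h1 : ∀ T : Finset (Fin v), Tendsto (fun D => (∑ d ∈ Tu a v c D, (exs H d r T : ℝ)) / ((Tu a v c D).card : ℝ)) l
      (nhds Pool.Agent.Q269.AV.rho) := by
    intro T
    obtain ⟨-, g2, g3⟩ := mean_Tu H hCLN hPRD hKDR hN c hc (fun x => (x r T : ℝ)) 1 1 (fun x => by
      rw [one_mul, abs_of_nonneg (Nat.cast_nonneg _)]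
      have h1 : (x r T : ℝ) ≤ (2 : ℝ) ^ x r T := by exact_mod_cast (Nat.lt_two_pow_self (n := x r T)).le
      refine h1.trans ?_
      have h2 : ∀ r, (1 : ℝ) ≤ ∏ T, ((2 : ℝ) ^ 1) ^ x r T := fun r => by
        calc (1 : ℝ) = ∏ _s : Finset (Fin v), (1 : ℝ) := by rw [prod_const_one]
          _ ≤ ∏ s, ((2 : ℝ) ^ 1) ^ x r s :=
            prod_le_prod (fun _ _ => zero_le_one) fun s _ => one_le_pow₀ (by norm_num)
      rw [← mul_prod_erase univ (fun r => ∏ T, ((2 : ℝ) ^ 1) ^ x r T) (mem_univ r),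
        ← mul_prod_erase univ (fun T => ((2 : ℝ) ^ 1) ^ x r T) (mem_univ T), pow_one, mul_assoc]
      refine le_mul_of_one_le_right (by positivity) ?_
      refine one_le_mul_of_one_le_of_one_le ?_ ?_
      · calc (1 : ℝ) = ∏ _s ∈ univ.erase T, (1 : ℝ) := by rw [prod_const_one]
          _ ≤ ∏ s ∈ univ.erase T, ((2 : ℝ)) ^ x r s :=
            prod_le_prod (fun _ _ => zero_le_one) fun s _ => one_le_pow₀ (by norm_num)
      · calc (1 : ℝ) = ∏ _s ∈ univ.erase r, (1 : ℝ) := by rw [prod_const_one]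
          _ ≤ ∏ s ∈ univ.erase r, ∏ T, ((2 : ℝ)) ^ x s T :=
            prod_le_prod (fun _ _ => zero_le_one) fun s _ => by
              have := h2 s
              rwa [pow_one] at this)
    have e1 : ∀ χ : TQ a → Fin (v + 1) → ZMod 2, (∑' x : Finset (Fin v) × R → ℕ,
        (sw R _ x r T : ℝ) * ∏ y : Finset (Fin v) × R,
          Pool.Agent.Q269.SL.lawc (g0 H y.2 + ∑ i, eT y.1 i * Ph χ y.2 i) (x y)) =
        mm (g0 H r + ∑ i, eT T i * Ph χ r i) := fun χ =>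
      mm_one (fun y : Finset (Fin v) × R => g0 H y.2 + ∑ i, eT y.1 i * Ph χ y.2 i) (T, r)
    rw [g2, sum_congr rfl fun χ _ => e1 χ, avg_mm H hCLN] at g3
    exact g3
  have h2 := tendsto_finsetSum (univ : Finset (Finset (Fin v))) fun T _ => h1 T
  rw [sum_const, card_univ, Fintype.card_finset, Fintype.card_fin, nsmul_eq_mul] at h2
  push_cast at h2
  refine h2.congr fun D => ?_
  rw [sum_comm, sum_div]

/-- **the share of the tuples with all exponents zero** -/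
theorem zero_Tu (hCLN : S_CLN) (hPRD : S_PRD) (hKDR : S_KDR) {l : Filter k[X]}
    (hN : Nice H (eT (v := v)) l) (c : ZMod 2) (hc : ∀ r, c + (N r : ZMod 2) = 1) :
    Tendsto (fun D => (∑ d ∈ Tu a v c D, (if exs H d = 0 then (1 : ℝ) else 0)) / ((Tu a v c D).card : ℝ)) l
      (nhds (((1 / 2) ^ (v + 1) * (2 * law2 0) ^ 2 ^ v) ^ Fintype.card R)) := by
  obtain ⟨-, -, g3⟩ := mean_Tu H hCLN hPRD hKDR hN c hc (fun x => if x = 0 then 1 else 0) 0 1 (fun x => by
    have h1 : (∏ r, ∏ T, ((2 : ℝ) ^ 0) ^ x r T) = 1 := by simp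
    rw [h1]
    split_ifs <;> norm_num)
  have g4 : LL (R := R) (v := v) (fun x => if x = 0 then 1 else 0) =
      ((1 / 2) ^ (v + 1) * (2 * law2 0) ^ 2 ^ v) ^ Fintype.card R := by
    unfold LL
    rw [tsum_eq_single 0 fun x hx => by
      show (if x = 0 then (1 : ℝ) else 0) * ∏ r, jl (x r) = 0
      rw [if_neg hx, zero_mul]]
    show (if (0 : R → Finset (Fin v) → ℕ) = 0 then (1 : ℝ) else 0) * ∏ r, jl ((0 : R → Finset (Fin v) → ℕ) r) = _
    rw [if_pos rfl, one_mul]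
    have h1 : ∀ r ∈ (univ : Finset R), jl ((0 : R → Finset (Fin v) → ℕ) r) = (1 / 2) ^ (v + 1) * (2 * law2 0) ^ 2 ^ v :=
      fun r _ => jl_zero
    rw [prod_congr rfl h1, prod_const, card_univ]
  rw [g4] at g3
  exact g3

/-- **the share of the dependent tuples** -/
theorem dep_Tu (hCLN : S_CLN) (hPRD : S_PRD) {l : Filter k[X]} (hN : Nice H (eT (v := v)) l) (c : ZMod 2)
    (hω : ∀ K : ℕ, ∀ᶠ D in l, K ≤ Fintype.card (Ip D)) (p : (Fin (v + 1) → k[X]) → Prop)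
    (hp : ∀ d, ¬ p d → ∃ T : Finset (Fin v), T.Nonempty ∧ IsSquare (∏ i ∈ T, d i.succ)) :
    Tendsto (fun D => (((Tu a v c D).filter fun d => ¬ p d).card : ℝ) / ((Tu a v c D).card : ℝ)) l (nhds 0) := by
  rw [Metric.tendsto_nhds]
  intro ε hε
  obtain ⟨K, hK⟩ : ∃ K : ℕ, 2 ^ (2 * v + 1) * (1 / 2 : ℝ) ^ K < ε := by
    obtain ⟨K, hK⟩ := exists_pow_lt_of_lt_one (show (0 : ℝ) < ε / 2 ^ (2 * v + 1) by positivity)
      (show (1 / 2 : ℝ) < 1 by norm_num)
    exact ⟨K, by rw [lt_div_iff₀ (by positivity)] at hK; linarith⟩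
  filter_upwards [hN.mem, hN.spn, hω K] with D hD hs hw
  have h1 : (((Al a v c D).filter fun τ => ¬ p (DD τ)).card : ℝ) * 2 ^ Fintype.card (Ip D) ≤
      2 ^ (2 * v + 1) * ((Al a v c D).card : ℝ) :=
    indep_card H hCLN hPRD hD hs c (fun τ => ¬ p (DD τ)) _ fun τ h => hp _ h
  have h2 : ((Tu a v c D).filter fun d => ¬ p d).card ≤ ((Al a v c D).filter fun τ => ¬ p (DD τ)).card := by
    unfold Tu
    rw [filter_image]
    exact card_image_le
  have h3 : (((Tu a v c D).filter fun d => ¬ p d).card : ℝ) ≤ (((Al a v c D).filter fun τ => ¬ p (DD τ)).card : ℝ) := by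
    exact_mod_cast h2
  have h4 : (0 : ℝ) < ((Al a v c D).card : ℝ) := by
    have h5 := Al_num (v := v) hCLN hs c
    rcases Nat.eq_zero_or_pos (Al a v c D).card with h6 | h6
    · rw [h6, zero_mul] at h5
      have : 0 < 2 ^ ((v + 1) * Fintype.card (Ip D)) := by positivity
      omega
    · exact_mod_cast h6
  rw [Real.dist_eq, sub_zero, abs_of_nonneg (by positivity), Tu_card H hPRD hD, div_lt_iff₀ h4]
  have h5 : (2 : ℝ) ^ K ≤ 2 ^ Fintype.card (Ip D) := pow_le_pow_right₀ (by norm_num) hw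
  have h6 : (((Al a v c D).filter fun τ => ¬ p (DD τ)).card : ℝ) * 2 ^ K ≤ 2 ^ (2 * v + 1) * ((Al a v c D).card : ℝ) :=
    (mul_le_mul_of_nonneg_left h5 (Nat.cast_nonneg _)).trans h1
  have h7 : (((Al a v c D).filter fun τ => ¬ p (DD τ)).card : ℝ) ≤
      2 ^ (2 * v + 1) * (1 / 2 : ℝ) ^ K * ((Al a v c D).card : ℝ) := by
    have h8 : (1 / 2 : ℝ) ^ K * 2 ^ K = 1 := by
      rw [← mul_pow]
      norm_num
    calc (((Al a v c D).filter fun τ => ¬ p (DD τ)).card : ℝ)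
        = (1 / 2 : ℝ) ^ K * ((((Al a v c D).filter fun τ => ¬ p (DD τ)).card : ℝ) * 2 ^ K) := by
          rw [mul_comm _ ((2 : ℝ) ^ K), ← mul_assoc, h8, one_mul]
      _ ≤ (1 / 2 : ℝ) ^ K * (2 ^ (2 * v + 1) * ((Al a v c D).card : ℝ)) :=
          mul_le_mul_of_nonneg_left h6 (by positivity)
      _ = _ := by ring
  exact (h3.trans h7).trans_lt (mul_lt_mul_of_pos_right hK h4)

/-- the share of the tuples with a property, and independent -/
theorem and_Tu {l : Filter k[X]} (c : ZMod 2) (p q : (Fin (v + 1) → k[X]) → Prop) (iq : DecidablePred q) (L : ℝ)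
    (hp : Tendsto (fun D => (((Tu a v c D).filter fun d => ¬ p d).card : ℝ) / ((Tu a v c D).card : ℝ)) l (nhds 0))
    (hq : Tendsto (fun D => (∑ d ∈ Tu a v c D, (@ite ℝ (q d) (iq d) 1 0)) / ((Tu a v c D).card : ℝ)) l (nhds L)) :
    Tendsto (fun D => (∑ d ∈ Tu a v c D, (if p d ∧ q d then (1 : ℝ) else 0)) / ((Tu a v c D).card : ℝ)) l (nhds L) := by
  have h1 : Tendsto (fun D => (∑ d ∈ Tu a v c D, (if ¬ p d ∧ q d then (1 : ℝ) else 0)) / ((Tu a v c D).card : ℝ)) l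
      (nhds 0) := by
    refine tendsto_of_tendsto_of_tendsto_of_le_of_le tendsto_const_nhds hp ?_ ?_
    · intro D
      exact div_nonneg (sum_nonneg fun d _ => by split_ifs <;> norm_num) (Nat.cast_nonneg _)
    · intro D
      refine div_le_div_of_nonneg_right ?_ (Nat.cast_nonneg _)
      have h2 : (((Tu a v c D).filter fun d => ¬ p d).card : ℝ) = ∑ d ∈ Tu a v c D, (if ¬ p d then (1 : ℝ) else 0) := by
        rw [sum_ite, sum_const_zero, add_zero, sum_const, nsmul_eq_mul, mul_one]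
      rw [h2]
      refine sum_le_sum fun d _ => ?_
      by_cases h3 : p d
      · rw [if_neg fun h => h.1 h3, if_neg fun h => h h3]
      · rw [if_pos h3]
        split_ifs <;> norm_num
  have h2 := hq.sub h1
  rw [sub_zero] at h2
  refine h2.congr fun D => ?_
  rw [← sub_div, ← sum_sub_distrib]
  congr 1
  refine sum_congr rfl fun d _ => ?_
  by_cases h3 : p d <;> by_cases h4 : q d <;> simp [h3, h4]

/-- all tuples -/
theorem one_Tu (hCLN : S_CLN) (hPRD : S_PRD) {l : Filter k[X]} (hN : Nice H (eT (v := v)) l) (c : ZMod 2) :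
    Tendsto (fun D => (∑ d ∈ Tu a v c D, (if True then (1 : ℝ) else 0)) / ((Tu a v c D).card : ℝ)) l (nhds 1) := by
  refine tendsto_const_nhds.congr' ?_
  filter_upwards [hN.mem, hN.spn] with D hD hs
  have h4 : ((Tu a v c D).card : ℝ) ≠ 0 := by
    have h5 := Al_num (v := v) hCLN hs c
    rw [Tu_card H hPRD hD]
    intro h6
    rw [Nat.cast_eq_zero.1 h6, zero_mul] at h5
    have : 0 < 2 ^ ((v + 1) * Fintype.card (Ip D)) := by positivity
    omega
  simp only [if_true, sum_const, nsmul_eq_mul, mul_one]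
  rw [div_self h4]

end

/-- squares in the fraction field -/
theorem sq_iff {k K : Type} [Field k] [Field K] [Algebra k[X] K] [IsFractionRing k[X] K] (f : k[X])
    (h : IsSquare (algebraMap k[X] K f)) : IsSquare f := by
  obtain ⟨y, hy⟩ := h
  have h1 : IsIntegral k[X] (y ^ 2) := by
    rw [pow_two, ← hy]
    exact isIntegral_algebraMap
  obtain ⟨g, hg⟩ := IsIntegrallyClosed.exists_algebraMap_eq_of_isIntegral_pow (R := k[X]) (by norm_num : 0 < 2) h1
  refine ⟨g, IsFractionRing.injective k[X] K ?_⟩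
  rw [hy, map_mul, hg]

end Pool.Agent.Q269.DY
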